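import Mathlib

set_option autoImplicit false

namespace Pool.Agent.H.MP_56f0a1_co

abbrev I := Fin 4 ⊕ Fin 4

def mu (M : Matrix I (Fin 4) ℤ) (m : Fin 4) : Matrix I (Fin 4) ℤ :=
  Matrix.of (fun (i : I) (j : Fin 4) =>
    if i = Sum.inl m ∨ j = m then -(M i j)
    else M i j + Int.sign (M i m) * max (M i m * M (Sum.inl m) j) 0)

noncomputable def step {K : Type} [Field K] (s : (I → K) × Matrix I (Fin 4) ℤ) (m : Fin 4) :
    (I → K) × Matrix I (Fin 4) ℤ :=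
  (Function.update s.1 (Sum.inl m)
    ((∏ i, s.1 i ^ (s.2 i m).toNat + ∏ i, s.1 i ^ (-(s.2 i m)).toNat) / s.1 (Sum.inl m)), mu s.2 m)

def B : Matrix (Fin 4) (Fin 4) ℤ := Matrix.of ![![0, -2, 2, 2], ![2, 0, -1, -1], ![-2, 1, 0, 1], ![-2, 1, -1, 0]]

def M0 : Matrix I (Fin 4) ℤ := Matrix.of (Sum.elim ![![0, -2, 2, 2], ![2, 0, -1, -1], ![-2, 1, 0, 1], ![-2, 1, -1, 0]]
  ![![1, 0, 0, 0], ![0, 1, 0, 0], ![0, 0, 1, 0], ![0, 0, 0, 1]])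

def M1 : Matrix I (Fin 4) ℤ := Matrix.of (Sum.elim ![![0, 2, 0, 0], ![-2, 0, 1, 1], ![0, -1, 0, 1], ![0, -1, -1, 0]]
  ![![1, 0, 0, 0], ![2, -1, 0, 0], ![0, 0, 1, 0], ![0, 0, 0, 1]])

def M2 : Matrix I (Fin 4) ℤ := Matrix.of (Sum.elim ![![0, -2, 0, 0], ![2, 0, 1, 1], ![0, -1, 0, 1], ![0, -1, -1, 0]]
  ![![-1, 2, 0, 0], ![-2, 3, 0, 0], ![0, 0, 1, 0], ![0, 0, 0, 1]])

def M3 : Matrix I (Fin 4) ℤ := Matrix.of (Sum.elim ![![0, -2, 0, 0], ![2, 0, -1, 2], ![0, 1, 0, -1], ![0, -2, 1, 0]]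
  ![![-1, 2, 0, 0], ![-2, 3, 0, 0], ![0, 0, -1, 1], ![0, 0, 0, 1]])

def M4 : Matrix I (Fin 4) ℤ := Matrix.of (Sum.elim ![![0, -2, 0, 0], ![2, 0, 1, -2], ![0, -1, 0, 1], ![0, 2, -1, 0]]
  ![![-1, 2, 0, 0], ![-2, 3, 0, 0], ![0, 0, 0, -1], ![0, 0, 1, -1]])

theorem e0 : Matrix.fromRows B (1 : Matrix (Fin 4) (Fin 4) ℤ) = M0 := by decide

theorem e1 : mu M0 1 = M1 := by decide

theorem e2 : mu M1 0 = M2 := by decide

theorem e3 : mu M2 2 = M3 := by decide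

theorem e4 : mu M3 3 = M4 := by decide

theorem s0 {K : Type} [Field K] (x : I → K) : step (x, M0) 1 =
    (Function.update x (Sum.inl 1) ((x (Sum.inl 2) ^ 1 * x (Sum.inl 3) ^ 1 * x (Sum.inr 1) ^ 1 + x (Sum.inl 0) ^ 2) / x (Sum.inl 1)), mu M0 1) := by
  unfold step
  simp [Fintype.prod_sum_type, Fin.prod_univ_four, M0, mul_assoc]

theorem s1 {K : Type} [Field K] (x : I → K) : step (x, M1) 0 =
    (Function.update x (Sum.inl 0) ((x (Sum.inr 0) ^ 1 * x (Sum.inr 1) ^ 2 + x (Sum.inl 1) ^ 2) / x (Sum.inl 0)), mu M1 0) := by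
  unfold step
  simp [Fintype.prod_sum_type, Fin.prod_univ_four, M1, mul_assoc]

theorem s2 {K : Type} [Field K] (x : I → K) : step (x, M2) 2 =
    (Function.update x (Sum.inl 2) ((x (Sum.inl 1) ^ 1 * x (Sum.inr 2) ^ 1 + x (Sum.inl 3) ^ 1) / x (Sum.inl 2)), mu M2 2) := by
  unfold step
  simp [Fintype.prod_sum_type, Fin.prod_univ_four, M2, mul_assoc]

theorem s3 {K : Type} [Field K] (x : I → K) : step (x, M3) 3 =
    (Function.update x (Sum.inl 3) ((x (Sum.inl 1) ^ 2 * x (Sum.inr 2) ^ 1 * x (Sum.inr 3) ^ 1 + x (Sum.inl 2) ^ 1) / x (Sum.inl 3)), mu M3 3) := by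
  unfold step
  simp [Fintype.prod_sum_type, Fin.prod_univ_four, M3, mul_assoc]

theorem s4 {K : Type} [Field K] (x : I → K) : step (x, M4) 1 =
    (Function.update x (Sum.inl 1) ((x (Sum.inl 3) ^ 2 * x (Sum.inr 0) ^ 2 * x (Sum.inr 1) ^ 3 + x (Sum.inl 0) ^ 2 * x (Sum.inl 2) ^ 1) / x (Sum.inl 1)), mu M4 1) := by
  unfold step
  simp [Fintype.prod_sum_type, Fin.prod_univ_four, M4, mul_assoc]

def L : List ((I → ℤ) × ℤ) := [(Sum.elim ![4, -3, -1, 1] ![0, 0, 0, 0], 1),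
  (Sum.elim ![6, -4, -1, 0] ![0, 0, 1, 0], 1),
  (Sum.elim ![2, -3, 0, 2] ![0, 1, 0, 0], 3),
  (Sum.elim ![4, -4, 0, 1] ![0, 1, 1, 0], 4),
  (Sum.elim ![0, -3, 1, 3] ![0, 2, 0, 0], 3),
  (Sum.elim ![2, -4, 1, 2] ![0, 2, 1, 0], 6),
  (Sum.elim ![-2, -3, 2, 4] ![0, 3, 0, 0], 1),
  (Sum.elim ![0, -4, 2, 3] ![0, 3, 1, 0], 4),
  (Sum.elim ![-2, -4, 3, 4] ![0, 4, 1, 0], 1),
  (Sum.elim ![0, -1, -1, 1] ![1, 2, 0, 0], 2),
  (Sum.elim ![2, -2, -1, 0] ![1, 2, 1, 0], 2),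
  (Sum.elim ![-2, -1, 0, 2] ![1, 3, 0, 0], 2),
  (Sum.elim ![0, -2, 0, 1] ![1, 3, 1, 0], 4),
  (Sum.elim ![-2, -2, 1, 2] ![1, 4, 1, 0], 2),
  (Sum.elim ![-2, 1, -2, 0] ![2, 3, 0, 0], 1),
  (Sum.elim ![0, 0, -2, -1] ![2, 3, 1, 0], 2),
  (Sum.elim ![2, -1, -1, -1] ![2, 3, 1, 1], 2),
  (Sum.elim ![2, -1, -2, -2] ![2, 3, 2, 0], 1),
  (Sum.elim ![4, -2, -1, -2] ![2, 3, 2, 1], 2),
  (Sum.elim ![6, -3, 0, -2] ![2, 3, 2, 2], 1),
  (Sum.elim ![-2, 0, -1, 0] ![2, 4, 1, 0], 1),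
  (Sum.elim ![0, -1, 0, 0] ![2, 4, 1, 1], 2),
  (Sum.elim ![0, -1, -1, -1] ![2, 4, 2, 0], 1),
  (Sum.elim ![2, -2, 0, -1] ![2, 4, 2, 1], 4),
  (Sum.elim ![4, -3, 1, -1] ![2, 4, 2, 2], 3),
  (Sum.elim ![0, -2, 1, 0] ![2, 5, 2, 1], 2),
  (Sum.elim ![2, -3, 2, 0] ![2, 5, 2, 2], 3),
  (Sum.elim ![0, -3, 3, 1] ![2, 6, 2, 2], 1)]

noncomputable def c : (I → ℤ) →₀ ℤ := (L.map (fun t => Finsupp.single t.1 t.2)).sum

theorem sum_list {K : Type} [Field K] (g : (I → ℤ) → K) (l : List ((I → ℤ) × ℤ)) :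
    ((l.map (fun t => Finsupp.single t.1 t.2)).sum).sum (fun a r => ((r : ℤ) : K) * g a) =
      (l.map (fun t => (t.2 : K) * g t.1)).sum := by
  induction l with
  | nil => simp
  | cons t l ih =>
    rw [List.map_cons, List.sum_cons, Finsupp.sum_add_index' (by simp) (by intros; push_cast; ring), ih,
      Finsupp.sum_single_index (by simp), List.map_cons, List.sum_cons]

theorem apply_list (a : I → ℤ) (l : List ((I → ℤ) × ℤ)) :
    ((l.map (fun t => Finsupp.single t.1 t.2)).sum) a =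
      (l.map (fun t => if t.1 = a then t.2 else 0)).sum := by
  induction l with
  | nil => simp
  | cons t l ih =>
    rw [List.map_cons, List.sum_cons, Finsupp.add_apply, ih, Finsupp.single_apply, List.map_cons,
      List.sum_cons]

theorem fold_eq {K : Type} [Field K] (x : I → K) (hx : ∀ i, x i ≠ 0)
    (h : x (Sum.inl 2) * x (Sum.inl 3) * x (Sum.inr 1) + x (Sum.inl 0) ^ 2 ≠ 0) :
    (List.foldl step (x, M0) [1, 0, 2, 3, 1]).1 (Sum.inl 1) =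
      c.sum (fun a r => (r : K) * ∏ i, x i ^ (a i)) := by
  unfold c
  rw [sum_list]
  simp only [List.foldl]
  rw [s0, e1, s1, e2, s2, e3, s3, e4, s4]
  have a0 := hx (Sum.inl 0)
  have a1 := hx (Sum.inl 1)
  have a2 := hx (Sum.inl 2)
  have a3 := hx (Sum.inl 3)
  simp only [L, List.map_cons, List.map_nil, List.sum_cons, List.sum_nil, Fintype.prod_sum_type,
    Fin.prod_univ_four, Sum.elim_inl, Sum.elim_inr]
  simp [Function.update]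
  generalize x (Sum.inl 0) = p0 at *
  generalize x (Sum.inl 1) = p1 at *
  generalize x (Sum.inl 2) = p2 at *
  generalize x (Sum.inl 3) = p3 at *
  generalize x (Sum.inr 0) = q0 at *
  generalize x (Sum.inr 1) = q1 at *
  generalize x (Sum.inr 2) = q2 at *
  generalize x (Sum.inr 3) = q3 at *
  field_simp
  ring

def a0 : I → ℤ := Sum.elim ![4, -3, 0, 0] ![1, 2, 1, 1]
def a1 : I → ℤ := Sum.elim ![4, -3, -1, 1] ![0, 0, 0, 0]
def a2 : I → ℤ := Sum.elim ![4, -3, 1, -1] ![2, 4, 2, 2]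

theorem c0 : c a0 = 0 := by unfold c; rw [apply_list]; decide
theorem c1 : c a1 = 1 := by unfold c; rw [apply_list]; decide
theorem c2 : c a2 = 3 := by unfold c; rw [apply_list]; decide
theorem mid : ∀ i, 2 * a0 i = a1 i + a2 i := by decide

end Pool.Agent.H.MP_56f0a1_co
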